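import Pool.Agent.H5.TT.Stm

set_option autoImplicit false

namespace H11.TT

open H5.TT MeasureTheory ENNReal

noncomputable def G (u : ℝ × R3) (x : R3) : ℝ≥0∞ :=
  ENNReal.ofReal (Real.exp (-(2 * u.1 * ‖x - u.2‖ ^ 2)))

noncomputable def gg (t : ℝ) : ℝ := (Real.pi / (4 * t)) ^ ((3 : ℝ) / 2)

noncomputable def cc (u : ℝ × R3) : ℝ≥0∞ :=
  ENNReal.ofReal ((√Real.pi)⁻¹ * u.1 ^ (-(1 / 2) : ℝ) / gg u.1)

noncomputable def mu' : Measure (ℝ × R3) := (volume.restrict (Set.Ioi (0 : ℝ))).prod volume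

instance : SFinite mu' := by unfold mu'; infer_instance

lemma meas_G : Measurable fun q : (ℝ × R3) × R3 => G q.1 q.2 := by
  unfold G
  fun_prop

lemma meas_cc : Measurable cc := by
  unfold cc gg
  fun_prop

lemma gg_pos {t : ℝ} (ht : 0 < t) : 0 < gg t := by
  unfold gg
  positivity

lemma lint_w {t : ℝ} (ht : 0 < t) (x y : R3) :
    ∫⁻ w : R3, G (t, w) x * G (t, w) y =
      ENNReal.ofReal (Real.exp (-(t * ‖x - y‖ ^ 2)) * gg t) := by
  set m : R3 := (1 / 2 : ℝ) • (x + y) with hm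
  have h1 : ∀ w : R3, G (t, w) x * G (t, w) y = ENNReal.ofReal
      (Real.exp (-(t * ‖x - y‖ ^ 2)) * Real.exp (-(4 * t) * ‖w - m‖ ^ 2)) := by
    intro w
    unfold G
    rw [← ENNReal.ofReal_mul (Real.exp_pos _).le, ← Real.exp_add, ← Real.exp_add]
    congr 2
    have h2 := parallelogram_law_with_norm ℝ (x - w) (y - w)
    have h3 : x - w - (y - w) = x - y := by abel
    have h4 : x - w + (y - w) = (-2 : ℝ) • (w - m) := by
      rw [hm, smul_sub, smul_smul]
      norm_num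
      module
    rw [h3, h4, norm_smul] at h2
    norm_num at h2
    nlinarith [h2]
  have hg := GaussianFourier.integral_rexp_neg_mul_sq_norm (V := R3) (b := 4 * t) (by positivity)
  have hfin : (Module.finrank ℝ R3 : ℝ) = 3 := by
    simp [R3]
  rw [hfin] at hg
  have hi : Integrable fun v : R3 => Real.exp (-(4 * t) * ‖v‖ ^ 2) := by
    by_contra hcon
    rw [integral_undef hcon] at hg
    have := gg_pos ht
    unfold gg at this
    linarith
  have hi2 : Integrable fun w : R3 => Real.exp (-(t * ‖x - y‖ ^ 2)) *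
      Real.exp (-(4 * t) * ‖w - m‖ ^ 2) := (hi.comp_sub_right m).const_mul _
  simp_rw [h1]
  rw [← ofReal_integral_eq_lintegral_ofReal hi2 (Filter.Eventually.of_forall fun w => by positivity),
    integral_const_mul, integral_sub_right_eq_self (fun v : R3 => Real.exp (-(4 * t) * ‖v‖ ^ 2)) m, hg]
  rfl

lemma ker {x y : R3} (h : x ≠ y) :
    ∫⁻ u, cc u * (G u x * G u y) ∂mu' = ENNReal.ofReal (1 / ‖x - y‖) := by
  have hr : 0 < ‖x - y‖ := norm_pos_iff.2 (sub_ne_zero.2 h)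
  have hmeas : Measurable fun u : ℝ × R3 => cc u * (G u x * G u y) := by
    unfold cc G gg
    fun_prop
  unfold mu'
  rw [lintegral_prod _ hmeas.aemeasurable]
  have h1 : ∀ t ∈ Set.Ioi (0 : ℝ), ∫⁻ w : R3, cc (t, w) * (G (t, w) x * G (t, w) y) =
      ENNReal.ofReal ((√Real.pi)⁻¹ * (t ^ ((1 / 2 : ℝ) - 1) * Real.exp (-(‖x - y‖ ^ 2 * t)))) := by
    intro t ht
    have ht' : 0 < t := ht
    have hg := gg_pos ht'
    have h2 : ∀ w : R3, cc (t, w) = ENNReal.ofReal ((√Real.pi)⁻¹ * t ^ (-(1 / 2) : ℝ) / gg t) :=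
      fun w => rfl
    simp_rw [h2]
    rw [lintegral_const_mul _ (by unfold G; fun_prop), lint_w ht', ← ENNReal.ofReal_mul (by positivity)]
    congr 1
    rw [show ((1 / 2 : ℝ) - 1) = -(1 / 2) by norm_num, mul_comm t (‖x - y‖ ^ 2)]
    field_simp
  rw [setLIntegral_congr_fun measurableSet_Ioi h1]
  have h3 := Real.integral_rpow_mul_exp_neg_mul_Ioi (a := 1 / 2) (r := ‖x - y‖ ^ 2) (by norm_num)
    (by positivity)
  have h4 : (1 / ‖x - y‖ ^ 2) ^ (1 / 2 : ℝ) * Real.Gamma (1 / 2) = √Real.pi / ‖x - y‖ := by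
    rw [Real.Gamma_one_half_eq, ← Real.sqrt_eq_rpow, Real.sqrt_div zero_le_one, Real.sqrt_one,
      Real.sqrt_sq hr.le]
    ring
  rw [h4] at h3
  have hpi : 0 < √Real.pi := Real.sqrt_pos.2 Real.pi_pos
  have hi : IntegrableOn (fun t : ℝ => t ^ ((1 / 2 : ℝ) - 1) * Real.exp (-(‖x - y‖ ^ 2 * t)))
      (Set.Ioi 0) := by
    by_contra hcon
    rw [integral_undef hcon] at h3
    have : 0 < √Real.pi / ‖x - y‖ := by positivity
    linarith
  rw [← ofReal_integral_eq_lintegral_ofReal (hi.const_mul _) ?_, integral_const_mul, h3]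
  · congr 1
    field_simp
  · refine (ae_restrict_iff' measurableSet_Ioi).2 (Filter.Eventually.of_forall fun t ht => ?_)
    have ht' : (0 : ℝ) < t := ht
    show (0 : ℝ) ≤ _
    positivity

lemma diag_null : ∀ᵐ p : R3 × R3, p.1 ≠ p.2 := by
  rw [ae_iff]
  have h1 : MeasurableSet {p : R3 × R3 | ¬ p.1 ≠ p.2} := by
    simp only [ne_eq, not_not]
    exact measurableSet_eq_fun measurable_fst measurable_snd
  rw [Measure.volume_eq_prod, Measure.measure_prod_null h1]
  refine Filter.Eventually.of_forall fun x => ?_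
  have h2 : Prod.mk x ⁻¹' {p : R3 × R3 | ¬ p.1 ≠ p.2} = {x} := by
    ext y
    simp [eq_comm]
  show volume (Prod.mk x ⁻¹' {p : R3 × R3 | ¬ p.1 ≠ p.2}) = 0
  rw [h2]
  simp

lemma L_eq {σ τ : R3 → ℝ} (hσ : Measurable σ) (hτ : Measurable τ) (h0 : ∀ x, 0 ≤ σ x)
    (h1 : ∀ x, 0 ≤ τ x) :
    ∫⁻ p : R3 × R3, ENNReal.ofReal (σ p.1 * τ p.2 / ‖p.1 - p.2‖) =
      ∫⁻ u, cc u * ((∫⁻ x, ENNReal.ofReal (σ x) * G u x) * ∫⁻ y, ENNReal.ofReal (τ y) * G u y) ∂mu' := by
  have hm : Measurable (Function.uncurry fun (p : R3 × R3) (u : ℝ × R3) =>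
      cc u * ((ENNReal.ofReal (σ p.1) * G u p.1) * (ENNReal.ofReal (τ p.2) * G u p.2))) := by
    unfold cc G gg Function.uncurry
    fun_prop
  calc ∫⁻ p : R3 × R3, ENNReal.ofReal (σ p.1 * τ p.2 / ‖p.1 - p.2‖)
      = ∫⁻ p : R3 × R3, ∫⁻ u, cc u * ((ENNReal.ofReal (σ p.1) * G u p.1) *
          (ENNReal.ofReal (τ p.2) * G u p.2)) ∂mu' := by
        refine lintegral_congr_ae ?_
        filter_upwards [diag_null] with p hp
        have e : σ p.1 * τ p.2 / ‖p.1 - p.2‖ = (σ p.1 * τ p.2) * (1 / ‖p.1 - p.2‖) := by ring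
        rw [e, ENNReal.ofReal_mul (mul_nonneg (h0 _) (h1 _)), ← ker hp,
          ← lintegral_const_mul _ (by unfold cc G gg; fun_prop)]
        refine lintegral_congr fun u => ?_
        rw [ENNReal.ofReal_mul (h0 _)]
        ring
    _ = ∫⁻ u, (∫⁻ p : R3 × R3, cc u * ((ENNReal.ofReal (σ p.1) * G u p.1) *
          (ENNReal.ofReal (τ p.2) * G u p.2))) ∂mu' := lintegral_lintegral_swap hm.aemeasurable
    _ = _ := by
        refine lintegral_congr fun u => ?_
        rw [lintegral_const_mul _ (by unfold G; fun_prop), Measure.volume_eq_prod,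
          lintegral_prod_mul (f := fun x => ENNReal.ofReal (σ x) * G u x)
            (g := fun y => ENNReal.ofReal (τ y) * G u y)
            (by unfold G; fun_prop) (by unfold G; fun_prop)]

lemma two_mul_le' (a b : ℝ≥0∞) : 2 * (a * b) ≤ a * a + b * b := by
  rcases le_total a b with h | h
  · obtain ⟨d, rfl⟩ := exists_add_of_le h
    calc 2 * (a * (a + d)) ≤ 2 * (a * (a + d)) + d * d := le_self_add
      _ = a * a + (a + d) * (a + d) := by ring
  · obtain ⟨d, rfl⟩ := exists_add_of_le h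
    calc 2 * ((b + d) * b) ≤ 2 * ((b + d) * b) + d * d := le_self_add
      _ = (b + d) * (b + d) + b * b := by ring

theorem t_COU (hDFI : S_DFI) : S_COU := by
  intro lam mu σ τ hσ hτ
  have key : ∀ (a b : ℝ) (f g : R3 → ℝ), Adm a f → Adm b g →
      ENNReal.ofReal (dd f g) = ∫⁻ u, cc u * ((∫⁻ x, ENNReal.ofReal (f x) * G u x) *
        ∫⁻ y, ENNReal.ofReal (g y) * G u y) ∂mu' := by
    intro a b f g hf hg
    rw [← L_eq hf.1 hg.1 hf.2.1 hg.2.1]
    unfold dd
    exact ofReal_integral_eq_lintegral_ofReal (hDFI a b f g hf hg)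
      (Filter.Eventually.of_forall fun p => div_nonneg (mul_nonneg (hf.2.1 _) (hg.2.1 _)) (norm_nonneg _))
  have nn : ∀ (f g : R3 → ℝ), (∀ x, 0 ≤ f x) → (∀ x, 0 ≤ g x) → 0 ≤ dd f g := fun f g hf hg =>
    integral_nonneg fun p => div_nonneg (mul_nonneg (hf _) (hg _)) (norm_nonneg _)
  have h1 : ENNReal.ofReal (2 * dd σ τ) ≤ ENNReal.ofReal (dd σ σ + dd τ τ) := by
    rw [ENNReal.ofReal_mul (by norm_num), ENNReal.ofReal_add (nn _ _ hσ.2.1 hσ.2.1)
      (nn _ _ hτ.2.1 hτ.2.1), key _ _ _ _ hσ hτ, key _ _ _ _ hσ hσ, key _ _ _ _ hτ hτ,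
      ← lintegral_add_left' ?_, ← lintegral_const_mul' _ _ (by simp)]
    · refine lintegral_mono fun u => ?_
      have h2 := two_mul_le' (∫⁻ x, ENNReal.ofReal (σ x) * G u x) (∫⁻ y, ENNReal.ofReal (τ y) * G u y)
      rw [← mul_add]
      calc ENNReal.ofReal 2 * (cc u * ((∫⁻ x, ENNReal.ofReal (σ x) * G u x) *
            ∫⁻ y, ENNReal.ofReal (τ y) * G u y))
          = cc u * (2 * ((∫⁻ x, ENNReal.ofReal (σ x) * G u x) *
            ∫⁻ y, ENNReal.ofReal (τ y) * G u y)) := by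
            rw [show ENNReal.ofReal 2 = 2 by simp]
            ring
        _ ≤ _ := by gcongr
    · have h3 : Measurable fun u : ℝ × R3 => ∫⁻ x, ENNReal.ofReal (σ x) * G u x := by
        refine Measurable.lintegral_prod_right' (f := fun q : (ℝ × R3) × R3 =>
          ENNReal.ofReal (σ q.2) * G q.1 q.2) ?_
        have hs := hσ.1
        unfold G
        fun_prop
      exact (meas_cc.mul (h3.mul h3)).aemeasurable
  exact (ENNReal.ofReal_le_ofReal_iff (add_nonneg (nn _ _ hσ.2.1 hσ.2.1) (nn _ _ hτ.2.1 hτ.2.1))).1 h1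

end H11.TT
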